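import Pool.Agent.H896.KB.Main

/-!
# Kobayashi's conjecture for coverings of complete intersections in quotients of `ℂ^n × ∏ P^{r_j}`

Let `V = ℂ^n`, `F = P^{r_1} × ... × P^{r_c}`, and let `Γ` be a group of holomorphic isometries of `V × F`
which acts properly discontinuously with a compact quotient `X = (V × F) / Γ`: a point, a torus, a
hyperelliptic manifold, `F`, or a bundle with fibre `F` over the first ones, given by any projectively
unitary representation of `Γ` (so that it has no product decomposition after finite coverings), or a
quotient which permutes the factors of `F`. Let `D_i` be effective Cartier divisors on `X`, in number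
`N`, and `q_i ≠ 1` natural numbers. Let `Z` be the intersection of the `D_i` with `q_i = 0`, and `Y → Z` the
fibre product of the cyclic coverings `y_i ^ (q_i) = β_i` branched along the `D_i` with `q_i ≥ 2`. The theorem
says that Kobayashi's conjecture holds for `Y`, in all dimensions: if `Y` is Kobayashi hyperbolic (every
holomorphic map `ℂ → Y` is constant) then `K_Y` is ample. One condition is needed, and only for a factor
`P^{r_j}` on which `K_Y` has a degree `δ_j ≤ 0`: either no `D_i` meets the fibres in this direction, or one of
the coverings is ramified in the direction of the factor, and if moreover `δ_j = 0` then its order is divisible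
by `3` or `4`, or it is even and the root of the divisor has degree at least `2` on the factor.

Examples: all double and all triple coverings of `P^r` (so the Calabi-Yau threefolds `y ^ 2 = f_8` and
`y ^ 3 = f_6` of Picard number one), the double coverings of `P^1 × P^1 × P^1` branched along divisors of degree
`(4, 4, 4)`, of complete intersections in products of projective spaces, the same relatively, for non-split
bundles with these fibres over Abelian varieties and hyperelliptic manifolds, coverings of Abelian varieties
branched along any divisors; and `Y` may be a Kähler manifold which is not projective.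

The proof. (a) Let `u ≠ 0` be a vector in `V` with `H (u, u) ≤ 0`, where `(H, δ)` is the class of `K_Y`. The
Chern form of the canonical class of `X` is `0`, those of the `D_i` are semipositive, so `u` is in the kernel
of all of them. Then the equations of the `D_i`, suitably normalised by exponentials of linear functions,
are constant on all lines `v + t u` (Liouville), so that `t ↦ v + t u` lifts to an entire curve in `Y`, with
exponentials of linear functions as the coordinates `y_i` (`KB/Flat.lean`). (b) Let `δ_j ≤ 0`. The fibre of `Y`
over the other factors is a covering of a complete intersection in `P^{r_j}`, and one finds an entire curve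
in it by counting constants: the coverings are uniformised over an orbifold line with three points of orders
`(3, 3, 3)`, `(2, 4, 4)`, `(2, 3, 6)` or four points of order `2` (for `δ_j = 0`, theorem `exists_maps` of the
library, `MP_160ed4_ag/TrivialCanonicalCyclicCovers`), or there is a free parameter, and they become
rational curves (`δ_j < 0`, `KB/Neg.lean`; no condition on the orders).

The definitions are in `Pool.Agent.H896.KB.Stmt`, `Pool.Agent.H896.GN.Stmt`, `Pool.Agent.H896.IR.Stmt` and
`Pool.Agent.H896.IQ.Stmt`, and `Co`, `IsPt`, `mulBy`, `Trans`, `onV`, `onZ`, `jac`, `same`, `lin`, `IsHomog`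
and `IsEffective` in `Pool.Agent.T2H08.FQ.Stmt` of the library; `IsHermitian` is defined in
`Pool.Agent.W594.SYZ.Defs2` and `IsNefForm` in `Pool.Agent.W594.SYZ.TQDefs`.
-/

set_option autoImplicit false

namespace Pool.Agent.Results.MP_1e3e9c_ag.KobayashiForCyclicCovers

open Pool.Agent.T2H08.FB (Co Trans IsPt)
open Pool.Agent.H896.IG

/-- Let `X = (V × F) / Γ` be a compact quotient of `V × F`, `V = ℂ^n`, `F = P^{r 0} × ... × P^{r (c - 1)}`, by
a discrete group of holomorphic isometries such that `V × F → X` is unramified in codimension one (`hρ`), let
`K = O_X (m K_X)`, `m ≥ 1`, let the `D i`, given by the sections `β i`, be effective Cartier divisors, `q i ≠ 1`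
natural numbers, `R i` line bundles with `(R i) ^ (q i) = D i` for the `i` with `q i ≠ 0`, and let `Y` be the
fibre product of the corresponding cyclic coverings of the intersection of the `D i` with `q i = 0`. So `K_Y`
is the pullback of `K_X + ∑ (1 - 1 / q i) D_i` (with coefficient `1` for `q i = 0`) if `Γ` acts freely and the
`D i` are smooth and cross normally. Let `Y` have a point where `y i ≠ 0` for all `i` with `q i ≠ 0` (`hpt`), and
let the condition `FactorCondition` hold for the factors of `F` on which this class has degree `≤ 0` (`hfac`).

If `Y` contains no entire curves then this class is positive, that is, `K_Y` is ample. -/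
theorem result {n c : ℕ} {r : Fin c → ℕ} (Γ : Subgroup (Trans n r)) (hΓ : IsIsometryGroup Γ)
    (_hρ : IsRamification Γ (fun _ => 1) 1 (fun _ => 0)) (m : ℕ) (hm : 1 ≤ m) (K : LineBundle Γ)
    (hK : IsLogPluricanonical K m (fun _ => 1) 1 (fun _ => 0) (fun _ => 1) (fun _ => 0))
    (HK : (Fin n → ℂ) → (Fin n → ℂ) → ℂ) (hHK : K.IsChernForm HK) {N : ℕ}
    (D : Fin N → LineBundle Γ) (β : Fin N → (Fin n → ℂ) → MvPolynomial (Co r) ℂ)
    (κ : Fin N → Fin c → ℕ) (hβ : ∀ i, IsCartier (D i) (β i) (κ i))
    (HD : Fin N → (Fin n → ℂ) → (Fin n → ℂ) → ℂ) (hHD : ∀ i, (D i).IsChernForm (HD i))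
    (q : Fin N → ℕ) (hq : ∀ i, q i ≠ 1) (R : Fin N → LineBundle Γ)
    (hR : ∀ i, q i ≠ 0 → IsRoot (R i) (q i) (D i))
    (hpt : ∃ v z y, IsPt z ∧ OnCover q β v z y ∧ ∀ i, q i ≠ 0 → y i ≠ 0)
    (hfac : ∀ j, (realClass K HK D HD (1 / m) fun i => 1 - 1 / (q i : ℝ)).2 j ≤ 0 →
      FactorCondition D R q ((realClass K HK D HD (1 / m) fun i => 1 - 1 / (q i : ℝ)).2 j) j)
    (hyp : ¬ ∃ a b y, IsEntireCurve R q β a b y) :
    IsPositiveClass (realClass K HK D HD (1 / m) fun i => 1 - 1 / (q i : ℝ)) :=
  positive_of_hyperbolic hΓ hm hK hHK hβ hHD hq hR hpt hfac hyp

end Pool.Agent.Results.MP_1e3e9c_ag.KobayashiForCyclicCovers
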