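import Pool.Agent.H911.KE.Can

/-!
# Kobayashi's conjecture in dimension `m`: submanifolds of hyperbolic smooth hypersurfaces in `P^(2 m + 1)`

Q1 (Kobayashi): the canonical class of a hyperbolic projective manifold is ample. (A projective manifold is
Kobayashi hyperbolic if and only if all entire curves in it are constant.)

**(0) Models.** Let `2 m + 1 ≤ N`. There are bounds `D₁(e)` with the following property. Let `X` be a
connected projective manifold of dimension `w ≤ m` in `P^n` (any `n`). There are linear forms `A_0, …, A_N` on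
`P^n` which embed `X` as a submanifold `X'` of `P^N`, such that for some `e` and all `D ≥ D₁(e)` there is a
smooth hypersurface

`Y : ∑ t, Q_t(y) (y_0 + t y_1 + ⋯ + t^N y_N)^D = 0`, `t < N (2 N + 1)`, `Q_t` forms of degree `e`,

in `P^N` which contains `X'` and is hyperbolic outside of `X'` (`HyperbolicOutside`: the nonconstant entire
curves in `Y` and the closed subvarieties of `Y` of positive dimension which are not of general type are in
`X'`, and the holomorphic maps from the punctured disc to `Y` which do not extend). For all smooth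
hypersurfaces `Y` in `P^N` which are hyperbolic outside of `X'`, `Y` is hyperbolic if and only if `X` is
hyperbolic. In particular, every hyperbolic projective manifold of dimension `m` is a submanifold of a
hyperbolic smooth hypersurface in `P^(2 m + 1)`, all of whose closed subvarieties of positive dimension are
of general type or are contained in the manifold.

**(0′) Submanifolds which are not in `X'`.** Let `Y` be a smooth hypersurface in `P^N` which is hyperbolic
outside of a closed subset `X'`. All submanifolds `V` of `Y` of positive dimension which are not contained in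
`X'` are of general type; `V` is hyperbolic if and only if `V ∩ X'` is hyperbolic (for instance if it is
empty). By Mori's theorem and the base point free theorem (not used here) hyperbolic manifolds of general type
have an ample canonical class, so Q1 is true for these `V`.

**(1) ⟺ (2) ⟺ (3)** for every choice of one exponent `δ(e) ≥ D₁(e)` for each `e`:
(1) Q1 for all connected projective manifolds of dimension at most `m`;
(2) for all hyperbolic smooth hypersurfaces `Y` in `P^N`, all submanifolds of `Y` of dimension at most `m`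
have an ample canonical class;
(3) the same for the hyperbolic smooth hypersurfaces `∑ t, Q_t(y) (y_0 + t y_1 + ⋯ + t^N y_N)^D = 0` in `P^N`,
`D = δ(e)` (for each degree `e` of the forms `Q_t` only one linear system of hypersurfaces), and their
submanifolds `X'` of dimension at most `m` such that `Y` is hyperbolic outside of `X'`.

So Kobayashi's conjecture for manifolds of dimension `m` is a statement about the hyperbolic smooth
hypersurfaces of dimension `2 m` in `P^(2 m + 1)`. For threefolds, where only the hyperbolicity of
Calabi–Yau threefolds is open, it is the statement that hyperbolic smooth hypersurfaces of dimension six in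
`P^7` do not contain Calabi–Yau threefolds.

Ample canonical class (`AmpleCanonical`): for a projective manifold `X` of dimension `w` with function field
`L`, an `r`-canonical form is given by its values on `w` derivations of `L` (`IsPluri r`). It is regular at
the point `x` if its values on the derivations which map the local ring `O_x` to itself are in `O_x`; it does
not vanish at `x` if moreover one of these values is not in the maximal ideal. `K_X` is ample if and only if
for some `r > 0` there are `r`-canonical forms `ω_0, …, ω_M`, regular at all points and without common zeros,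
such that the morphism `(ω_0 : … : ω_M)` is an isomorphism from `X` to its image in `P^M`; for this it is
sufficient (and necessary) that the image has the same local rings in `L`.

Proof. A general linear projection embeds `X`; the hypersurface is general among those in the ideal of
`X'` of this form. By the library modules `N254.SQ` (vanishing subsums, Nevanlinna theory and Wronskians)
all nonconstant entire curves in `Y` are in `X'`. The inverse of the embedding is given locally by forms; so
the local rings of `X` and `X'` are the same subrings of `L`.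
-/

set_option autoImplicit false

namespace Pool.Agent.Results.MP_1e3e9c_ag.TwiceTheDimension

open MvPolynomial
open Pool.Agent.W602.GT (GeneralType)
open Pool.Agent.N254.SQ (IsForm SmoothForm powerForm)
open Pool.Agent.H911.EM (Emb at' HyperbolicOutside NoCurves)
open Pool.Agent.H911.KE (Mfd AmpleCanonical)

/-- Kobayashi's conjecture for all connected projective manifolds `X = V(S)` of dimension at most `m`: if
all entire curves in `X` are constant, then the canonical class of `X` is ample. -/
def Kobayashi (m : ℕ) : Prop :=
  ∀ (n : ℕ) (S : Set (MvPolynomial (Fin (n + 1)) ℂ)) (L : Type) [Field L] [Algebra ℂ L] (w : ℕ)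
    (y : Fin (n + 1) → L), w ≤ m → Mfd S L w y → NoCurves S → AmpleCanonical w y

/-- the submanifolds `V(S)` of dimension at most `m` of the hypersurface `B = 0` have an ample canonical
class -/
def Submanifolds {N : ℕ} (m : ℕ) (B : MvPolynomial (Fin (N + 1)) ℂ) : Prop :=
  ∀ (S : Set (MvPolynomial (Fin (N + 1)) ℂ)) (L : Type) [Field L] [Algebra ℂ L] (w : ℕ)
    (y : Fin (N + 1) → L), w ≤ m → Mfd S L w y → aeval y B = 0 → AmpleCanonical w y

/-- the same for the submanifolds such that the hypersurface is hyperbolic outside of them -/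
def SubmanifoldsOutside {N : ℕ} (m : ℕ) (B : MvPolynomial (Fin (N + 1)) ℂ) : Prop :=
  ∀ (S : Set (MvPolynomial (Fin (N + 1)) ℂ)) (L : Type) [Field L] [Algebra ℂ L] (w : ℕ)
    (y : Fin (N + 1) → L), w ≤ m → Mfd S L w y → HyperbolicOutside B S → AmpleCanonical w y

/-- **Kobayashi's conjecture for projective manifolds of dimension at most `m` is equivalent to a statement
on the submanifolds of the hyperbolic smooth hypersurfaces in `P^N`, `2 m + 1 ≤ N`.** -/
theorem result (m N : ℕ) (hN : 2 * m + 1 ≤ N) : ∃ D₁ : ℕ → ℕ,
    -- (0) models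
    (∀ (n : ℕ) (S : Set (MvPolynomial (Fin (n + 1)) ℂ)) (L : Type) [Field L] [Algebra ℂ L] (w : ℕ)
      (y : Fin (n + 1) → L), w ≤ m → Mfd S L w y →
      ∃ (e : ℕ) (S' : Set (MvPolynomial (Fin (N + 1)) ℂ))
        (A : Fin (N + 1) → MvPolynomial (Fin (n + 1)) ℂ), 1 ≤ e ∧ Emb S S' A ∧
        Mfd S' L w (at' A y) ∧ (AmpleCanonical w (at' A y) ↔ AmpleCanonical w y) ∧
        (∀ D, D₁ e ≤ D → ∃ Q : Fin (N * (2 * N + 1)) → MvPolynomial (Fin (N + 1)) ℂ,
          (∀ t, (Q t).IsHomogeneous e) ∧ HyperbolicOutside (powerForm D Q) S') ∧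
        ∀ B : MvPolynomial (Fin (N + 1)) ℂ, IsForm B → HyperbolicOutside B S' →
          (NoCurves {B} ↔ NoCurves S)) ∧
    -- (0') submanifolds `V(S)` which are not in `X' = V(S')`
    (∀ (B : MvPolynomial (Fin (N + 1)) ℂ) (S' : Set (MvPolynomial (Fin (N + 1)) ℂ)), IsForm B →
      HyperbolicOutside B S' → ∀ (S : Set (MvPolynomial (Fin (N + 1)) ℂ)) (L : Type) [Field L]
      [Algebra ℂ L] (w : ℕ) (y : Fin (N + 1) → L), 1 ≤ w → Mfd S L w y → aeval y B = 0 →
      (∃ F ∈ S', aeval y F ≠ 0) → GeneralType ℂ L w ∧ (NoCurves S ↔ NoCurves (S ∪ S'))) ∧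
    -- (1) - (3)
    ∀ δ : ℕ → ℕ, (∀ e, D₁ e ≤ δ e) →
      [ Kobayashi m,
        ∀ B : MvPolynomial (Fin (N + 1)) ℂ, IsForm B → SmoothForm B → NoCurves {B} →
          Submanifolds m B,
        ∀ (e : ℕ) (Q : Fin (N * (2 * N + 1)) → MvPolynomial (Fin (N + 1)) ℂ),
          (∀ t, (Q t).IsHomogeneous e) → SmoothForm (powerForm (δ e) Q) →
          NoCurves {powerForm (δ e) Q} → SubmanifoldsOutside m (powerForm (δ e) Q)].TFAE := by
  obtain ⟨D₁, -, H⟩ := Pool.Agent.H911.KE.exists_both N (by omega)
  have K : ∀ (n : ℕ) (S : Set (MvPolynomial (Fin (n + 1)) ℂ)) (L : Type) [Field L] [Algebra ℂ L]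
      (w : ℕ) (y : Fin (n + 1) → L), w ≤ m → Mfd S L w y →
      ∃ (e : ℕ) (S' : Set (MvPolynomial (Fin (N + 1)) ℂ))
        (A : Fin (N + 1) → MvPolynomial (Fin (n + 1)) ℂ), 1 ≤ e ∧ Emb S S' A ∧
        Mfd S' L w (at' A y) ∧ (AmpleCanonical w (at' A y) ↔ AmpleCanonical w y) ∧
        (∀ D, D₁ e ≤ D → ∃ Q : Fin (N * (2 * N + 1)) → MvPolynomial (Fin (N + 1)) ℂ,
          (∀ t, (Q t).IsHomogeneous e) ∧ HyperbolicOutside (powerForm D Q) S') ∧
        ∀ B : MvPolynomial (Fin (N + 1)) ℂ, IsForm B → HyperbolicOutside B S' →
          (NoCurves {B} ↔ NoCurves S) := by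
    intro n S L _ _ w y hw hS
    obtain ⟨e, S', A, he, hS', hE, h⟩ := H n S w (by omega) hS.manifold
    refine ⟨e, S', A, he, hE, Pool.Agent.H911.KE.mfd_image hE hS hS',
      Pool.Agent.H911.KE.ample_iff hE hS hS', fun D hD => ?_, fun B hB hO => ?_⟩
    · obtain ⟨Q, hQ, hO, -⟩ := h D hD
      exact ⟨Q, hQ, hO⟩
    · exact Pool.Agent.H911.EM.noCurves_iff (hE.weak hS.forms hS'.1)
        (Pool.Agent.H911.EM.hy_of hB hO)
  refine ⟨D₁, K, ?_, fun δ hδ => ?_⟩
  · rintro B S' hBf hO S L _ _ w y hw hS hyB ⟨F, hF, hFy⟩
    obtain ⟨-, -, hcur, -, hsub⟩ := hO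
    refine ⟨(hsub L w y hw ⟨hS.sub.ne, fun _ => hyB, hS.sub.gen, hS.sub.dim⟩).resolve_right
      fun h => hFy (h F hF), fun h f hf hf0 hfS => h f hf hf0 fun z p hp => hfS z p (Or.inl hp),
      fun h f hf hf0 hfS => ?_⟩
    rcases hcur f hf hf0 (fun t => (hS.dense (f t) (hf0 t) (hfS t)).2 B hBf hyB) with h1 | h1
    · exact h1
    · exact h f hf hf0 fun z p hp => hp.elim (fun h2 => hfS z p h2) fun h2 => h1 z p h2
  tfae_have 1 → 2 := by
    intro h B hBf _ hB S L _ _ w y hw hS hyB
    refine h N S L w y hw hS fun f hf hf0 hfS => hB f hf hf0 fun z p hp => ?_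
    rw [Set.mem_singleton_iff] at hp
    rw [hp]
    exact (hS.dense (f z) (hf0 z) (hfS z)).2 B hBf hyB
  tfae_have 2 → 3 := by
    intro h e Q hQ hsm hB S L _ _ w y hw hS hO
    have hf := Pool.Agent.H911.EM.power_form (D := δ e) hQ
    exact h _ hf hsm hB S L w y hw hS
      ((Pool.Agent.H911.EM.hy_of hf hO).van L y fun F hF => hS.sub.mem ⟨F, hF⟩)
  tfae_have 3 → 1 := by
    intro h n S L _ _ w y hw hS hcur
    obtain ⟨e, S', A, -, hE, hS', hA, hQ, hc⟩ := K n S L w y hw hS
    obtain ⟨Q, hQ, hO⟩ := hQ (δ e) (hδ e)
    have hf := Pool.Agent.H911.EM.power_form (D := δ e) hQ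
    exact hA.1 (h e Q hQ hO.1 ((hc _ hf hO).2 hcur) S' L w _ hw hS' hO)
  tfae_finish

end Pool.Agent.Results.MP_1e3e9c_ag.TwiceTheDimension
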